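import Pool.Agent.Q35.ZC.Stm4

/-!
Project ZC (helper35), job KEX: points over a tangent line of the branch curve over a finite
extension.
-/

set_option autoImplicit false
set_option linter.unusedSimpArgs false

open MvPolynomial

namespace Pool.Agent.Q153.ZC

/-- Infinitely many values of a quadratic polynomial are non-zero squares if one is. -/
theorem conic {L : Type} [Field L] [CharZero L] (l m n t1 w1 r : L) (hw : w1 ≠ 0)
    (h1 : w1 ^ 2 = l * t1 ^ 2 + m * t1 + n) (S : Set L) (hS : S.Finite) :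
    ∃ t w0 : L, t ∉ S ∧ t ≠ r ∧ w0 ≠ 0 ∧ w0 ^ 2 = l * t ^ 2 + m * t + n := by
  classical
  obtain ⟨q0, hq0⟩ : ∃ q0 : Polynomial L, q0 = Polynomial.C l * Polynomial.X ^ 2 +
    Polynomial.C m * Polynomial.X + Polynomial.C n := ⟨_, rfl⟩
  have hev : ∀ t, q0.eval t = l * t ^ 2 + m * t + n := by
    intro t
    rw [hq0]
    simp
  have hq0n : q0 ≠ 0 := by
    intro h
    have h2 := hev t1
    rw [h, Polynomial.eval_zero, ← h1] at h2
    exact hw (pow_eq_zero_iff (two_ne_zero)|>.1 h2.symm)
  let Bad : Finset L := hS.toFinset ∪ {r} ∪ q0.roots.toFinset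
  let P : L → Polynomial L := fun t => Polynomial.C (t - t1) * Polynomial.X ^ 2 +
    Polynomial.C (2 * w1) * Polynomial.X - Polynomial.C (l * (t - t1) + (2 * l * t1 + m))
  have hP : ∀ t, P t ≠ 0 := by
    intro t h
    have h2 : (P t).coeff 1 = 2 * w1 := by
      simp only [P, Polynomial.coeff_sub, Polynomial.coeff_add, Polynomial.coeff_C_mul,
        Polynomial.coeff_X_pow, Polynomial.coeff_X, Polynomial.coeff_C]
      norm_num
    rw [h, Polynomial.coeff_zero] at h2
    exact (mul_ne_zero two_ne_zero hw) h2.symm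
  let Q : Polynomial L := (∏ t ∈ Bad, P t) * (Polynomial.X ^ 2 - Polynomial.C l)
  have hQ : Q ≠ 0 := by
    refine mul_ne_zero (Finset.prod_ne_zero_iff.2 fun t _ => hP t) ?_
    exact Polynomial.X_pow_sub_C_ne_zero (by norm_num) l
  obtain ⟨a, ha⟩ := Infinite.exists_notMem_finset Q.roots.toFinset
  have hQa : Q.eval a ≠ 0 := by
    intro h
    exact ha (Multiset.mem_toFinset.2 ((Polynomial.mem_roots hQ).2 h))
  have hQe : Q.eval a = (∏ t ∈ Bad, (P t).eval a) * (a ^ 2 - l) := by
    simp [Q, Polynomial.eval_prod]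
  rw [hQe] at hQa
  have hal : a ^ 2 - l ≠ 0 := right_ne_zero_of_mul hQa
  have hB := Finset.prod_ne_zero_iff.1 (left_ne_zero_of_mul hQa)
  obtain ⟨u, hu⟩ : ∃ u : L, u = (2 * l * t1 + m - 2 * w1 * a) / (a ^ 2 - l) := ⟨_, rfl⟩
  have hu2 : u * (a ^ 2 - l) = 2 * l * t1 + m - 2 * w1 * a := by
    rw [hu, div_mul_cancel₀ _ hal]
  have hnot : t1 + u ∉ Bad := by
    intro h
    refine hB _ h ?_
    simp only [P, Polynomial.eval_sub, Polynomial.eval_add, Polynomial.eval_mul,
      Polynomial.eval_C, Polynomial.eval_pow, Polynomial.eval_X]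
    linear_combination hu2
  have hsq : (w1 + a * u) ^ 2 = l * (t1 + u) ^ 2 + m * (t1 + u) + n := by
    linear_combination h1 + u * hu2
  simp only [Bad, Finset.mem_union, Finset.mem_singleton, Set.Finite.mem_toFinset,
    Multiset.mem_toFinset, not_or] at hnot
  obtain ⟨⟨hn1, hn2⟩, hn3⟩ := hnot
  refine ⟨t1 + u, w1 + a * u, hn1, hn2, ?_, hsq⟩
  intro h0
  refine hn3 ((Polynomial.mem_roots hq0n).2 ?_)
  change q0.eval (t1 + u) = 0
  rw [hev, ← hsq, h0]
  ring

section line

variable {K A : Type} [Field K] [Field A] [Algebra K A]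

/-- The restriction of a polynomial to a line. -/
noncomputable def ps (b : A) : MvPolynomial (Fin 2) K →ₐ[K] Polynomial A :=
  aeval ![Polynomial.X, Polynomial.C b]

theorem ps_eval (b t : A) (g : MvPolynomial (Fin 2) K) :
    (ps b g).eval t = aeval ![t, b] g := by
  induction g using MvPolynomial.induction_on with
  | C a =>
    rw [ps, aeval_C, aeval_C]
    simp [Polynomial.algebraMap_apply]
  | add p q hp hq => rw [map_add, map_add, Polynomial.eval_add, hp, hq]
  | mul_X p i hp =>
    rw [map_mul, map_mul, Polynomial.eval_mul, hp]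
    congr 1
    rw [ps, aeval_X, aeval_X]
    fin_cases i <;> simp

theorem ps_der (b : A) (g : MvPolynomial (Fin 2) K) :
    (ps b g).derivative = ps b (pderiv 0 g) := by
  induction g using MvPolynomial.induction_on with
  | C a =>
    rw [ps, aeval_C, pderiv_C, map_zero]
    simp [Polynomial.algebraMap_apply]
  | add p q hp hq => rw [map_add, Polynomial.derivative_add, hp, hq, map_add, map_add]
  | mul_X p i hp =>
    rw [map_mul, Polynomial.derivative_mul, hp, Derivation.leibniz, smul_eq_mul, smul_eq_mul,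
      map_add, map_mul, map_mul, add_comm]
    have h1 : Polynomial.derivative (ps b (X i : MvPolynomial (Fin 2) K)) =
        ps b (pderiv 0 (X i : MvPolynomial (Fin 2) K)) := by
      rw [ps, aeval_X]
      fin_cases i
      · simp [pderiv_X_self]
      · simp [pderiv_X_of_ne]
    rw [h1]
    ring

theorem ps_deg (b : A) (g : MvPolynomial (Fin 2) K) (hg : g.degreeOf 0 ≤ 4) :
    (ps b g).natDegree ≤ 4 := by
  rw [ps, aeval_def, eval₂_eq']
  refine Polynomial.natDegree_sum_le_of_forall_le _ _ (fun (d : Fin 2 →₀ ℕ) (hd : d ∈ g.support) => ?_)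
  rw [Fin.prod_univ_two, Polynomial.algebraMap_apply]
  have h1 : d 0 ≤ 4 := le_trans (monomial_le_degreeOf (f := g) 0 hd) hg
  simp only [Matrix.cons_val_zero, Matrix.cons_val_one]
  refine (Polynomial.natDegree_C_mul_le _ _).trans ?_
  rw [← Polynomial.C_pow]
  refine (Polynomial.natDegree_mul_C_le _ _).trans ?_
  rw [Polynomial.natDegree_X_pow]
  exact h1

end line

theorem down {K L B : Type} [Field K] [Field L] [Field B] [Algebra K L] [Algebra L B]
    [Algebra K B] [IsScalarTower K L B] (z : Fin 2 → L) (g : MvPolynomial (Fin 2) K) :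
    algebraMap L B (eval z (map (algebraMap K L) g)) = aeval (fun i => algebraMap L B (z i)) g := by
  rw [eval_map, aeval_def, eval₂_comp_left, ← IsScalarTower.algebraMap_eq]
  rfl

theorem up {L B : Type} [Field L] [Field B] [Algebra L B] (z : Fin 2 → L)
    (g : MvPolynomial (Fin 2) L) :
    aeval (fun i => algebraMap L B (z i)) g = algebraMap L B (eval z g) := by
  have h : eval z g = eval₂ (RingHom.id L) z g := rfl
  rw [aeval_def, h, eval₂_comp_left, RingHom.comp_id]
  rfl

open Pool.Agent.Q35.ZC in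
theorem kex : S_KEX := by
  classical
  intro K _ _ f hf y hy0 hy1 ht₂
  obtain ⟨t₂, ht₂⟩ := ht₂
  obtain ⟨r, hr⟩ : ∃ r, r = y 0 := ⟨_, rfl⟩
  obtain ⟨b, hb⟩ : ∃ b, b = y 1 := ⟨_, rfl⟩
  have hye : y = ![r, b] := by
    funext i
    fin_cases i
    · exact hr.symm
    · exact hb.symm
  have hyu : Function.update y 0 t₂ = ![t₂, b] := by
    funext i
    fin_cases i
    · simp
    · simp [hb]
  rw [hyu, ← ps_eval] at ht₂
  rw [hye, ← ps_eval] at hy0 hy1
  rw [← ps_der] at hy1
  obtain ⟨q, hq⟩ : ∃ q, q = ps b f := ⟨_, rfl⟩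
  rw [← hq] at ht₂ hy0 hy1
  have hdeg : q.natDegree ≤ 4 := by
    rw [hq]
    exact ps_deg b f (hf 0)
  have hqn : q ≠ 0 := by
    intro h
    rw [h, Polynomial.eval_zero] at ht₂
    exact ht₂ rfl
  obtain ⟨q1, hq1⟩ := Polynomial.dvd_iff_isRoot.2 (show q.IsRoot r from hy0)
  have hq1r : q1.eval r = 0 := by
    rw [hq1, Polynomial.derivative_mul, Polynomial.eval_add, Polynomial.eval_mul,
      Polynomial.eval_mul] at hy1
    simpa using hy1
  obtain ⟨q0, hq0⟩ := Polynomial.dvd_iff_isRoot.2 (show q1.IsRoot r from hq1r)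
  have hq0n : q0 ≠ 0 := by
    intro h
    rw [hq1, hq0, h, mul_zero, mul_zero] at hqn
    exact hqn rfl
  have hXr : (Polynomial.X - Polynomial.C r) ≠ 0 := Polynomial.X_sub_C_ne_zero r
  have hdeg0 : q0.natDegree ≤ 2 := by
    rw [hq1, hq0, Polynomial.natDegree_mul hXr (mul_ne_zero hXr hq0n),
      Polynomial.natDegree_mul hXr hq0n, Polynomial.natDegree_X_sub_C] at hdeg
    omega
  have hq0e : ∀ t, q0.eval t = q0.coeff 2 * t ^ 2 + q0.coeff 1 * t + q0.coeff 0 := by
    intro t
    rw [Polynomial.eval_eq_sum_range' (n := 3) (by omega)]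
    simp only [Finset.sum_range_succ, Finset.sum_range_zero]
    ring
  have hqe : ∀ t, q.eval t = (t - r) ^ 2 * (q0.coeff 2 * t ^ 2 + q0.coeff 1 * t + q0.coeff 0) := by
    intro t
    rw [hq1, hq0, Polynomial.eval_mul, Polynomial.eval_mul, hq0e]
    simp only [Polynomial.eval_sub, Polynomial.eval_X, Polynomial.eval_C]
    ring
  obtain ⟨t1, ht1⟩ := Infinite.exists_notMem_finset q0.roots.toFinset
  have ht1e : q0.eval t1 ≠ 0 := by
    intro h
    exact ht1 (Multiset.mem_toFinset.2 ((Polynomial.mem_roots hq0n).2 h))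
  obtain ⟨w1, hw1⟩ := IsAlgClosed.exists_pow_nat_eq (q0.eval t1) (n := 2) (by norm_num)
  have hw1n : w1 ≠ 0 := by
    intro h
    rw [h, zero_pow two_ne_zero] at hw1
    exact ht1e hw1.symm
  rw [hq0e] at hw1
  obtain ⟨S0, hS0⟩ : ∃ S0 : Finset (AlgebraicClosure K),
      S0 = {r, b, w1, t1, q0.coeff 2, q0.coeff 1, q0.coeff 0} := ⟨_, rfl⟩
  let L := IntermediateField.adjoin K (S0 : Set (AlgebraicClosure K))
  haveI : FiniteDimensional K L := IntermediateField.finiteDimensional_adjoin
    (fun x _ => Algebra.IsIntegral.isIntegral x)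
  haveI : NumberField L := NumberField.of_module_finite K L
  have hmem : ∀ x ∈ S0, ∃ x' : L, algebraMap L (AlgebraicClosure K) x' = x := by
    intro x hx
    exact ⟨⟨x, IntermediateField.subset_adjoin K _ (Finset.mem_coe.2 hx)⟩, rfl⟩
  obtain ⟨r', hr'⟩ := hmem r (by rw [hS0]; simp)
  obtain ⟨b', hb'⟩ := hmem b (by rw [hS0]; simp)
  obtain ⟨w1', hw1'⟩ := hmem w1 (by rw [hS0]; simp)
  obtain ⟨t1', ht1'⟩ := hmem t1 (by rw [hS0]; simp)
  obtain ⟨l', hl'⟩ := hmem (q0.coeff 2) (by rw [hS0]; simp)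
  obtain ⟨m', hm'⟩ := hmem (q0.coeff 1) (by rw [hS0]; simp)
  obtain ⟨n', hn'⟩ := hmem (q0.coeff 0) (by rw [hS0]; simp)
  have hinj : Function.Injective (algebraMap L (AlgebraicClosure K)) :=
    (algebraMap L (AlgebraicClosure K)).injective
  have hfun : (fun i => algebraMap L (AlgebraicClosure K) (![r', b'] i)) = ![r, b] := by
    funext i
    fin_cases i
    · exact hr'
    · exact hb'
  have hz : ∀ g : MvPolynomial (Fin 2) K, aeval ![r, b] g = 0 →
      eval ![r', b'] (map (algebraMap K L) g) = 0 := by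
    intro g hg
    apply hinj
    rw [down, hfun, map_zero]
    exact hg
  have h0 : eval ![r', b'] (map (algebraMap K L) f) = 0 := by
    apply hz
    rw [← ps_eval, ← hq]
    exact hy0
  have h1 : eval ![r', b'] (map (algebraMap K L) (pderiv 0 f)) = 0 := by
    apply hz
    rw [← ps_eval, ← ps_der, ← hq]
    exact hy1
  refine ⟨L, inferInstance, inferInstance, algebraMap K L, b',
    ⟨fun i => algebraMap L (AlgebraicClosure L) (![r', b'] i), rfl, ?_, ?_⟩, ?_⟩
  · rw [up, h0, map_zero]
  · rw [pderiv_map, up, h1, map_zero]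
  · intro S hS
    have hw1n' : w1' ≠ 0 := by
      intro h
      rw [h, map_zero] at hw1'
      exact hw1n hw1'.symm
    have hsq : w1' ^ 2 = l' * t1' ^ 2 + m' * t1' + n' := by
      apply hinj
      rw [map_pow, map_add, map_add, map_mul, map_mul, map_pow, hw1', hl', ht1', hm', hn']
      exact hw1
    obtain ⟨t, w0, hc1, hc2, hc3, hc4⟩ := conic l' m' n' t1' w1' r' hw1n' hsq S hS
    refine ⟨![t, b'], (t - r') * w0, rfl, hc1, mul_ne_zero (sub_ne_zero.2 hc2) hc3, ?_⟩
    apply hinj
    have hfun2 : (fun i => algebraMap L (AlgebraicClosure K) (![t, b'] i)) =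
        ![algebraMap L (AlgebraicClosure K) t, b] := by
      funext i
      fin_cases i
      · rfl
      · exact hb'
    rw [down, hfun2, ← ps_eval, ← hq, hqe, mul_pow, hc4]
    rw [map_mul, map_pow, map_sub, map_add, map_add, map_mul, map_mul, map_pow, hr', hl', hm',
      hn']

end Pool.Agent.Q153.ZC
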